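import Mathlib

set_option autoImplicit false

/-!
# Distinct distances in the integer grid: an upper bound `n^{1/2 - c/log log n}`
-/

namespace Pool.Agent.Results.MP_0cbd55_co.UpperBound

/-- The Euclidean distance of two points of `ℤ² ⊆ ℝ²`. -/
noncomputable def euclDist (p q : ℤ × ℤ) : ℝ :=
  Real.sqrt (((p.1 : ℝ) - (q.1 : ℝ)) ^ 2 + ((p.2 : ℝ) - (q.2 : ℝ)) ^ 2)

/-- The `m × m` integer lattice `{1, …, m}²`. -/
noncomputable def lattice (m : ℕ) : Finset (ℤ × ℤ) := Finset.Icc (1 : ℤ) (m : ℤ) ×ˢ Finset.Icc (1 : ℤ) (m : ℤ)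

/-- `S` spans no distance more than once: different (unordered) pairs of distinct points of `S`
have different Euclidean distances. -/
def SpansNoDistanceTwice (S : Finset (ℤ × ℤ)) : Prop :=
  ∀ p ∈ S, ∀ q ∈ S, ∀ r ∈ S, ∀ t ∈ S, p ≠ q → r ≠ t → euclDist p q = euclDist r t →
    s(p, q) = s(r, t)

open Classical in
/-- `sGrid m = s(m²)`: the largest size of a subset of `{1, …, m}²` that spans no distance more
than once. -/
noncomputable def sGrid (m : ℕ) : ℕ :=
  ((lattice m).powerset.filter SpansNoDistanceTwice).sup Finset.card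

section partA

open Finset

/-- The squared Euclidean distance of two lattice points. -/
def Q (a b : ℤ × ℤ) : ℤ := (a.1 - b.1) ^ 2 + (a.2 - b.2) ^ 2

lemma Q_comm (a b : ℤ × ℤ) : Q a b = Q b a := by unfold Q; ring

/-- Cauchy-Schwarz: among `k` points with colours in a set of size `N` there are at least `k²/N`
ordered monochromatic pairs. -/
lemma pairs_ge {α β : Type*} [DecidableEq β] [Fintype β] (S : Finset α) (φ : α → β) :
    ((S.card : ℝ)) ^ 2 ≤ (Fintype.card β : ℝ) *
      ∑ a ∈ S, ∑ b ∈ S, (if φ a = φ b then (1 : ℝ) else 0) := by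
  have h1 : (S.card : ℝ) = ∑ x : β, ((S.filter (fun a => φ a = x)).card : ℝ) := by
    rw [← Nat.cast_sum]
    congr 1
    exact Finset.card_eq_sum_card_fiberwise (fun a _ => Finset.mem_univ (φ a))
  have h2 : (∑ x : β, ((S.filter (fun a => φ a = x)).card : ℝ)) ^ 2 ≤
      (Fintype.card β : ℝ) * ∑ x : β, ((S.filter (fun a => φ a = x)).card : ℝ) ^ 2 := by
    have := sq_sum_le_card_mul_sum_sq (s := (Finset.univ : Finset β))
      (f := fun x => ((S.filter (fun a => φ a = x)).card : ℝ))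
    simpa using this
  have h3 : ∑ a ∈ S, ∑ b ∈ S, (if φ a = φ b then (1 : ℝ) else 0) =
      ∑ x : β, ((S.filter (fun a => φ a = x)).card : ℝ) ^ 2 := by
    have : ∀ a ∈ S, ∑ b ∈ S, (if φ a = φ b then (1 : ℝ) else 0) =
        ((S.filter (fun b => φ b = φ a)).card : ℝ) := by
      intro a _
      rw [Finset.sum_ite, Finset.sum_const_zero, add_zero, Finset.sum_const, nsmul_eq_mul, mul_one]
      congr 2
      ext b
      simp only [Finset.mem_filter, eq_comm]
    rw [Finset.sum_congr rfl this]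
    rw [← Finset.sum_fiberwise_of_maps_to (t := (Finset.univ : Finset β)) (g := φ)
      (fun a _ => Finset.mem_univ _)]
    apply Finset.sum_congr rfl
    intro x _
    have : ∀ a ∈ S.filter (fun a => φ a = x), ((S.filter (fun b => φ b = φ a)).card : ℝ) =
        ((S.filter (fun b => φ b = x)).card : ℝ) := by
      intro a ha
      rw [(Finset.mem_filter.mp ha).2]
    rw [Finset.sum_congr rfl this, Finset.sum_const, nsmul_eq_mul, sq]
  rw [h3]
  calc (S.card : ℝ) ^ 2 = (∑ x : β, ((S.filter (fun a => φ a = x)).card : ℝ)) ^ 2 := by rw [← h1]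
    _ ≤ _ := h2

lemma prime_step {p : ℕ} (hp : p.Prime) (hp4 : p % 4 = 1) {ι : ℤ} (hι : (p : ℤ) ∣ ι ^ 2 + 1)
    (x y : ℤ) :
    (if (p : ℤ) ∣ x - ι * y then (1 : ℝ) else 0) + (if (p : ℤ) ∣ x + ι * y then (1 : ℝ) else 0) ≤
      (if (p : ℤ) ^ 2 ∣ x ^ 2 + y ^ 2 then (1 : ℝ) else 0) +
        (if (p : ℤ) ∣ x ^ 2 + y ^ 2 then (1 : ℝ) else 0) := by
  have hpi : Prime (p : ℤ) := Nat.prime_iff_prime_int.mp hp
  have key : (p : ℤ) ∣ x - ι * y ∨ (p : ℤ) ∣ x + ι * y → (p : ℤ) ∣ x ^ 2 + y ^ 2 := by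
    intro h
    have h1 : (p : ℤ) ∣ (x - ι * y) * (x + ι * y) := by
      rcases h with h | h
      · exact Dvd.dvd.mul_right h _
      · exact Dvd.dvd.mul_left h _
    have h2 : x ^ 2 + y ^ 2 = (x - ι * y) * (x + ι * y) + (ι ^ 2 + 1) * y ^ 2 := by ring
    rw [h2]
    exact dvd_add h1 (Dvd.dvd.mul_right hι _)
  by_cases h1 : (p : ℤ) ∣ x - ι * y
  · by_cases h2 : (p : ℤ) ∣ x + ι * y
    · have h3 : (p : ℤ) ^ 2 ∣ x ^ 2 + y ^ 2 := by
        have h2x : (p : ℤ) ∣ 2 * x := by
          have := dvd_add h1 h2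
          have e : x - ι * y + (x + ι * y) = 2 * x := by ring
          rwa [e] at this
        have hp2 : ¬ (p : ℤ) ∣ 2 := by
          intro h
          have : p ∣ 2 := by exact_mod_cast h
          have := (Nat.prime_dvd_prime_iff_eq hp Nat.prime_two).mp this
          omega
        have hx : (p : ℤ) ∣ x := (hpi.dvd_or_dvd h2x).resolve_left hp2
        have hιy : (p : ℤ) ∣ ι * y := by
          have := dvd_sub h2 hx
          have e : x + ι * y - x = ι * y := by ring
          rwa [e] at this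
        have hnι : ¬ (p : ℤ) ∣ ι := by
          intro h
          have h4 : (p : ℤ) ∣ ι ^ 2 := Dvd.dvd.pow h (by norm_num)
          have h5 := dvd_sub hι h4
          have e : ι ^ 2 + 1 - ι ^ 2 = 1 := by ring
          rw [e] at h5
          exact hpi.not_isUnit (isUnit_of_dvd_one h5)
        have hy : (p : ℤ) ∣ y := (hpi.dvd_or_dvd hιy).resolve_left hnι
        exact dvd_add (pow_dvd_pow_of_dvd hx 2) (pow_dvd_pow_of_dvd hy 2)
      rw [if_pos h1, if_pos h2, if_pos h3, if_pos (key (Or.inl h1))]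
    · rw [if_pos h1, if_neg h2, if_pos (key (Or.inl h1))]
      split_ifs <;> norm_num
  · by_cases h2 : (p : ℤ) ∣ x + ι * y
    · rw [if_neg h1, if_pos h2, if_pos (key (Or.inr h2))]
      split_ifs <;> norm_num
    · rw [if_neg h1, if_neg h2]
      split_ifs <;> norm_num

lemma exists_root {p : ℕ} (hp : p.Prime) (hp4 : p % 4 = 1) : ∃ ι : ℤ, (p : ℤ) ∣ ι ^ 2 + 1 := by
  have := Fact.mk hp
  have h : IsSquare (-1 : ZMod p) := by
    apply ZMod.exists_sq_eq_neg_one_iff.mpr
    omega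
  obtain ⟨y, hy⟩ := h
  obtain ⟨z, hz⟩ := ZMod.intCast_surjective y
  refine ⟨z, ?_⟩
  rw [← ZMod.intCast_zmod_eq_zero_iff_dvd]
  push_cast
  rw [hz, sq, ← hy]
  ring

section main

variable (P : Finset ℕ) (hP : ∀ p ∈ P, p.Prime ∧ p % 4 = 1) (ι : ℕ → ℤ)

/-- the colouring attached to a choice of signs -/
def cls (T : Finset ℕ) (a : ℤ × ℤ) : (p : P) → ZMod (p : ℕ) :=
  fun p => if (p : ℕ) ∈ T then ((a.1 - ι p * a.2 : ℤ) : ZMod (p : ℕ))
    else ((a.1 + ι p * a.2 : ℤ) : ZMod (p : ℕ))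

lemma cls_eq_iff (T : Finset ℕ) (hT : T ⊆ P) (a b : ℤ × ℤ) :
    cls P ι T a = cls P ι T b ↔
      (∀ p ∈ T, (p : ℤ) ∣ (a.1 - b.1) - ι p * (a.2 - b.2)) ∧
      (∀ p ∈ P \ T, (p : ℤ) ∣ (a.1 - b.1) + ι p * (a.2 - b.2)) := by
  constructor
  · intro h
    constructor
    · intro p hp
      have := congrFun h ⟨p, hT hp⟩
      simp only [cls, hp, if_true] at this
      rw [ZMod.intCast_eq_intCast_iff_dvd_sub] at this
      have e : (a.1 - b.1) - ι p * (a.2 - b.2) = -((b.1 - ι p * b.2) - (a.1 - ι p * a.2)) := by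
        ring
      rw [e, dvd_neg]
      exact this
    · intro p hp
      rw [Finset.mem_sdiff] at hp
      have := congrFun h ⟨p, hp.1⟩
      simp only [cls, hp.2, if_false] at this
      rw [ZMod.intCast_eq_intCast_iff_dvd_sub] at this
      have e : (a.1 - b.1) + ι p * (a.2 - b.2) = -((b.1 + ι p * b.2) - (a.1 + ι p * a.2)) := by
        ring
      rw [e, dvd_neg]
      exact this
  · rintro ⟨h1, h2⟩
    funext p
    obtain ⟨p, hp⟩ := p
    simp only [cls]
    split_ifs with hpT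
    · rw [ZMod.intCast_eq_intCast_iff_dvd_sub]
      have e : (b.1 - ι p * b.2) - (a.1 - ι p * a.2) = -((a.1 - b.1) - ι p * (a.2 - b.2)) := by
        ring
      rw [e, dvd_neg]
      exact h1 p hpT
    · rw [ZMod.intCast_eq_intCast_iff_dvd_sub]
      have e : (b.1 + ι p * b.2) - (a.1 + ι p * a.2) = -((a.1 - b.1) + ι p * (a.2 - b.2)) := by
        ring
      rw [e, dvd_neg]
      exact h2 p (Finset.mem_sdiff.mpr ⟨hp, hpT⟩)

lemma ind_cls (T : Finset ℕ) (hT : T ⊆ P) (a b : ℤ × ℤ) [Decidable (cls P ι T a = cls P ι T b)] :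
    (if cls P ι T a = cls P ι T b then (1 : ℝ) else 0) =
      (∏ p ∈ T, (if (p : ℤ) ∣ (a.1 - b.1) - ι p * (a.2 - b.2) then (1 : ℝ) else 0)) *
      (∏ p ∈ P \ T, (if (p : ℤ) ∣ (a.1 - b.1) + ι p * (a.2 - b.2) then (1 : ℝ) else 0)) := by
  rw [Finset.prod_ite_zero, Finset.prod_ite_zero]
  simp only [Finset.prod_const_one]
  by_cases h : cls P ι T a = cls P ι T b
  · rw [if_pos h]
    obtain ⟨h1, h2⟩ := (cls_eq_iff P ι T hT a b).mp h
    rw [if_pos h1, if_pos h2]
    norm_num
  · rw [if_neg h]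
    have h1 := (cls_eq_iff P ι T hT a b).not.mp h
    rw [not_and_or] at h1
    rcases h1 with h1 | h1
    · rw [if_neg h1, zero_mul]
    · rw [if_neg h1, mul_zero]

/-- `h(d) = ∏_{p ∈ P} ([p² ∣ d] + [p ∣ d])` -/
noncomputable def hh (d : ℕ) : ℝ :=
  ∏ p ∈ P, ((if p ^ 2 ∣ d then (1 : ℝ) else 0) + (if p ∣ d then (1 : ℝ) else 0))

lemma hh_nonneg (d : ℕ) : 0 ≤ hh P d := by
  apply Finset.prod_nonneg
  intro p _
  split_ifs <;> norm_num

lemma sum_ind_le (hι : ∀ p ∈ P, (p : ℤ) ∣ ι p ^ 2 + 1) (hP : ∀ p ∈ P, p.Prime ∧ p % 4 = 1)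
    (a b : ℤ × ℤ) :
    ∑ T ∈ P.powerset, ((∏ p ∈ T, (if (p : ℤ) ∣ (a.1 - b.1) - ι p * (a.2 - b.2) then (1 : ℝ) else 0)) *
      (∏ p ∈ P \ T, (if (p : ℤ) ∣ (a.1 - b.1) + ι p * (a.2 - b.2) then (1 : ℝ) else 0))) ≤
      hh P (Q a b).toNat := by
  rw [← Finset.prod_add, hh]
  apply Finset.prod_le_prod
  · intro p _
    split_ifs <;> norm_num
  · intro p hp
    have h1 := prime_step (hP p hp).1 (hP p hp).2 (hι p hp) (a.1 - b.1) (a.2 - b.2)
    have hQ : ((Q a b).toNat : ℤ) = (a.1 - b.1) ^ 2 + (a.2 - b.2) ^ 2 := by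
      rw [Int.toNat_of_nonneg (by unfold Q; positivity)]
      rfl
    have e1 : (p : ℤ) ^ 2 ∣ (a.1 - b.1) ^ 2 + (a.2 - b.2) ^ 2 ↔ p ^ 2 ∣ (Q a b).toNat := by
      rw [← hQ]
      exact_mod_cast Iff.rfl
    have e2 : (p : ℤ) ∣ (a.1 - b.1) ^ 2 + (a.2 - b.2) ^ 2 ↔ p ∣ (Q a b).toNat := by
      rw [← hQ]
      exact_mod_cast Iff.rfl
    simp only [e1, e2] at h1
    exact h1

lemma sum_hh_le (hP : ∀ p ∈ P, p.Prime ∧ p % 4 = 1) (X : ℕ) :
    ∑ d ∈ Finset.Ioc 0 X, hh P d ≤ (X : ℝ) / (∏ p ∈ P, (p : ℝ)) * (6 / 5) ^ P.card := by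
  classical
  have hpos : ∀ p ∈ P, (0 : ℝ) < p := fun p hp => by
    exact_mod_cast (hP p hp).1.pos
  have h5 : ∀ p ∈ P, 5 ≤ p := by
    intro p hp
    have h1 := (hP p hp).1.two_le
    have h2 := (hP p hp).2
    omega
  -- expand
  have h1 : ∀ d, hh P d ≤ ∑ T ∈ P.powerset,
      (if (∏ p ∈ P, (if p ∈ T then p ^ 2 else p)) ∣ d then (1 : ℝ) else 0) := by
    intro d
    rw [hh, Finset.prod_add]
    apply Finset.sum_le_sum
    intro T hT
    rw [Finset.mem_powerset] at hT
    rw [Finset.prod_ite_zero, Finset.prod_ite_zero]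
    simp only [Finset.prod_const_one]
    by_cases hc : (∀ p ∈ T, p ^ 2 ∣ d) ∧ (∀ p ∈ P \ T, p ∣ d)
    · rw [if_pos hc.1, if_pos hc.2, if_pos]
      · norm_num
      · apply Finset.prod_dvd_of_isRelPrime
        · intro p hp q hq hpq
          have hcop : Nat.Coprime p q :=
            (Nat.coprime_primes (hP p hp).1 (hP q hq).1).mpr hpq
          have : Nat.Coprime (if p ∈ T then p ^ 2 else p) (if q ∈ T then q ^ 2 else q) := by
            split_ifs
            · exact Nat.Coprime.pow _ _ hcop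
            · exact Nat.Coprime.pow_left _ hcop
            · exact Nat.Coprime.pow_right _ hcop
            · exact hcop
          exact Nat.coprime_iff_isRelPrime.mp this
        · intro p hp
          by_cases hpT : p ∈ T
          · rw [if_pos hpT]; exact hc.1 p hpT
          · rw [if_neg hpT]; exact hc.2 p (Finset.mem_sdiff.mpr ⟨hp, hpT⟩)
    · rw [not_and_or] at hc
      rcases hc with hc | hc
      · rw [if_neg hc, zero_mul]
        split_ifs <;> norm_num
      · rw [if_neg hc, mul_zero]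
        split_ifs <;> norm_num
  calc ∑ d ∈ Finset.Ioc 0 X, hh P d
      ≤ ∑ d ∈ Finset.Ioc 0 X, ∑ T ∈ P.powerset,
      (if (∏ p ∈ P, (if p ∈ T then p ^ 2 else p)) ∣ d then (1 : ℝ) else 0) :=
        Finset.sum_le_sum (fun d _ => h1 d)
    _ = ∑ T ∈ P.powerset, ∑ d ∈ Finset.Ioc 0 X,
      (if (∏ p ∈ P, (if p ∈ T then p ^ 2 else p)) ∣ d then (1 : ℝ) else 0) := Finset.sum_comm
    _ ≤ ∑ T ∈ P.powerset, (X : ℝ) * ((∏ p ∈ T, ((p : ℝ)⁻¹ ^ 2)) * (∏ p ∈ P \ T, (p : ℝ)⁻¹)) := by
        apply Finset.sum_le_sum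
        intro T hT
        rw [Finset.mem_powerset] at hT
        rw [← Finset.sum_filter, Finset.sum_const, nsmul_eq_mul, mul_one,
          Nat.Ioc_filter_dvd_card_eq_div]
        have h2 : (∏ p ∈ T, ((p : ℝ)⁻¹ ^ 2)) * (∏ p ∈ P \ T, (p : ℝ)⁻¹) =
            (((∏ p ∈ P, (if p ∈ T then p ^ 2 else p) : ℕ)) : ℝ)⁻¹ := by
          push_cast
          rw [← Finset.prod_inv_distrib, ← Finset.prod_sdiff hT, mul_comm]
          congr 1
          · apply Finset.prod_congr rfl
            intro p hp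
            rw [if_neg (Finset.mem_sdiff.mp hp).2]
          · apply Finset.prod_congr rfl
            intro p hp
            rw [if_pos hp]
            rw [inv_pow]
        rw [h2, ← div_eq_mul_inv]
        exact Nat.cast_div_le
    _ = (X : ℝ) * ∏ p ∈ P, ((p : ℝ)⁻¹ ^ 2 + (p : ℝ)⁻¹) := by
        rw [Finset.prod_add, Finset.mul_sum]
    _ ≤ (X : ℝ) * ∏ p ∈ P, ((p : ℝ)⁻¹ * (6 / 5)) := by
        apply mul_le_mul_of_nonneg_left _ (Nat.cast_nonneg _)
        apply Finset.prod_le_prod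
        · intro p hp
          have := hpos p hp
          positivity
        · intro p hp
          have h6 := hpos p hp
          have h7 : (5 : ℝ) ≤ p := by exact_mod_cast h5 p hp
          have h8 : (p : ℝ)⁻¹ ≤ 1 / 5 := by
            rw [inv_eq_one_div]
            exact one_div_le_one_div_of_le (by norm_num) h7
          have h9 : 0 < (p : ℝ)⁻¹ := inv_pos.mpr h6
          nlinarith
    _ = (X : ℝ) / (∏ p ∈ P, (p : ℝ)) * (6 / 5) ^ P.card := by
        rw [Finset.prod_mul_distrib, Finset.prod_const, Finset.prod_inv_distrib]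
        ring

/-- The pairs of `S` use each squared distance at most once (twice for ordered pairs). -/
lemma sum_pairs_le (S : Finset (ℤ × ℤ)) (m : ℕ)
    (hS : ∀ a ∈ S, 1 ≤ a.1 ∧ a.1 ≤ m ∧ 1 ≤ a.2 ∧ a.2 ≤ m)
    (hD : ∀ a ∈ S, ∀ b ∈ S, ∀ c ∈ S, ∀ d ∈ S, a ≠ b → c ≠ d → Q a b = Q c d →
      (a = c ∧ b = d) ∨ (a = d ∧ b = c)) (f : ℕ → ℝ) (hf : ∀ d, 0 ≤ f d) :
    ∑ x ∈ S.offDiag, f (Q x.1 x.2).toNat ≤ 2 * ∑ d ∈ Finset.Ioc 0 (2 * m ^ 2), f d := by
  classical
  have hmaps : ∀ x ∈ S.offDiag, (Q x.1 x.2).toNat ∈ Finset.Ioc 0 (2 * m ^ 2) := by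
    intro x hx
    rw [Finset.mem_offDiag] at hx
    obtain ⟨h1, h2, h3⟩ := hx
    obtain ⟨a1, a2, a3, a4⟩ := hS _ h1
    obtain ⟨b1, b2, b3, b4⟩ := hS _ h2
    rw [Finset.mem_Ioc]
    have hpos : 0 < Q x.1 x.2 := by
      unfold Q
      have : x.1.1 ≠ x.2.1 ∨ x.1.2 ≠ x.2.2 := by
        by_contra h
        push Not at h
        exact h3 (Prod.ext h.1 h.2)
      rcases this with h | h
      · have : x.1.1 - x.2.1 ≠ 0 := sub_ne_zero.mpr h
        positivity
      · have : x.1.2 - x.2.2 ≠ 0 := sub_ne_zero.mpr h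
        positivity
    have hle : Q x.1 x.2 ≤ 2 * (m : ℤ) ^ 2 := by
      unfold Q
      have e1 : (x.1.1 - x.2.1) ^ 2 ≤ (m : ℤ) ^ 2 := by
        apply sq_le_sq'
        · linarith
        · linarith
      have e2 : (x.1.2 - x.2.2) ^ 2 ≤ (m : ℤ) ^ 2 := by
        apply sq_le_sq'
        · linarith
        · linarith
      linarith
    constructor
    · omega
    · have : ((Q x.1 x.2).toNat : ℤ) ≤ ((2 * m ^ 2 : ℕ) : ℤ) := by
        rw [Int.toNat_of_nonneg hpos.le]
        push_cast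
        exact hle
      exact_mod_cast this
  rw [← Finset.sum_fiberwise_of_maps_to hmaps, Finset.mul_sum]
  apply Finset.sum_le_sum
  intro d _
  have hcongr : ∀ x ∈ S.offDiag.filter (fun x => (Q x.1 x.2).toNat = d),
      f (Q x.1 x.2).toNat = f d := by
    intro x hx
    rw [(Finset.mem_filter.mp hx).2]
  rw [Finset.sum_congr rfl hcongr, Finset.sum_const, nsmul_eq_mul]
  apply mul_le_mul_of_nonneg_right _ (hf d)
  have hcard : (S.offDiag.filter (fun x => (Q x.1 x.2).toNat = d)).card ≤ 2 := by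
    rcases (S.offDiag.filter (fun x => (Q x.1 x.2).toNat = d)).eq_empty_or_nonempty with h | ⟨x, hx⟩
    · rw [h]; simp
    · rw [Finset.mem_filter, Finset.mem_offDiag] at hx
      obtain ⟨⟨hx1, hx2, hx3⟩, hxd⟩ := hx
      have hsub : S.offDiag.filter (fun x => (Q x.1 x.2).toNat = d) ⊆ {(x.1, x.2), (x.2, x.1)} := by
        intro y hy
        rw [Finset.mem_filter, Finset.mem_offDiag] at hy
        obtain ⟨⟨hy1, hy2, hy3⟩, hyd⟩ := hy
        have hQ : Q y.1 y.2 = Q x.1 x.2 := by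
          have h1 : (0 : ℤ) ≤ Q y.1 y.2 := by unfold Q; positivity
          have h2 : (0 : ℤ) ≤ Q x.1 x.2 := by unfold Q; positivity
          omega
        rw [Finset.mem_insert, Finset.mem_singleton]
        rcases hD _ hy1 _ hy2 _ hx1 _ hx2 hy3 hx3 hQ with h | h
        · left; exact Prod.ext h.1 h.2
        · right; exact Prod.ext h.1 h.2
      exact (Finset.card_le_card hsub).trans Finset.card_le_two
  exact_mod_cast hcard

lemma main_ineq (hP : ∀ p ∈ P, p.Prime ∧ p % 4 = 1) (S : Finset (ℤ × ℤ)) (m : ℕ)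
    (hS : ∀ a ∈ S, 1 ≤ a.1 ∧ a.1 ≤ m ∧ 1 ≤ a.2 ∧ a.2 ≤ m)
    (hD : ∀ a ∈ S, ∀ b ∈ S, ∀ c ∈ S, ∀ d ∈ S, a ≠ b → c ≠ d → Q a b = Q c d →
      (a = c ∧ b = d) ∨ (a = d ∧ b = c)) :
    (2 : ℝ) ^ P.card * ((S.card : ℝ) ^ 2 / (∏ p ∈ P, (p : ℝ)) - S.card) ≤
      4 * (m : ℝ) ^ 2 / (∏ p ∈ P, (p : ℝ)) * (6 / 5) ^ P.card := by
  classical
  have hroot : ∀ p ∈ P, ∃ ι : ℤ, (p : ℤ) ∣ ι ^ 2 + 1 := fun p hp => exists_root (hP p hp).1 (hP p hp).2
  choose! ι hι using hroot
  have hNpos : 0 < ∏ p ∈ P, (p : ℝ) := by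
    apply Finset.prod_pos
    intro p hp
    exact_mod_cast (hP p hp).1.pos
  have hinst : ∀ p : P, NeZero (p : ℕ) := fun p => ⟨(hP p.1 p.2).1.ne_zero⟩
  have hcard : (Fintype.card ((p : P) → ZMod (p : ℕ)) : ℝ) = ∏ p ∈ P, (p : ℝ) := by
    rw [Fintype.card_pi]
    simp only [ZMod.card]
    rw [Finset.prod_coe_sort P (fun p => p)]
    push_cast
    rfl
  -- lower bound for every choice of signs
  have hlow : ∀ T ∈ P.powerset, (S.card : ℝ) ^ 2 / (∏ p ∈ P, (p : ℝ)) ≤
      ∑ a ∈ S, ∑ b ∈ S, (if cls P ι T a = cls P ι T b then (1 : ℝ) else 0) := by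
    intro T _
    rw [div_le_iff₀ hNpos, mul_comm, ← hcard]
    exact pairs_ge S (cls P ι T)
  have h1 : (2 : ℝ) ^ P.card * ((S.card : ℝ) ^ 2 / (∏ p ∈ P, (p : ℝ))) ≤
      ∑ a ∈ S, ∑ b ∈ S, ∑ T ∈ P.powerset,
        (if cls P ι T a = cls P ι T b then (1 : ℝ) else 0) := by
    have h2 := Finset.sum_le_sum hlow
    rw [Finset.sum_const, Finset.card_powerset, nsmul_eq_mul] at h2
    push_cast at h2
    refine h2.trans (le_of_eq ?_)
    rw [Finset.sum_comm]
    apply Finset.sum_congr rfl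
    intro a _
    rw [Finset.sum_comm]
  -- split into diagonal and off-diagonal
  have h3 : ∑ a ∈ S, ∑ b ∈ S, ∑ T ∈ P.powerset,
        (if cls P ι T a = cls P ι T b then (1 : ℝ) else 0) =
      (2 : ℝ) ^ P.card * S.card + ∑ x ∈ S.offDiag, ∑ T ∈ P.powerset,
        (if cls P ι T x.1 = cls P ι T x.2 then (1 : ℝ) else 0) := by
    rw [← Finset.sum_product', ← Finset.diag_union_offDiag,
      Finset.sum_union (Finset.disjoint_diag_offDiag _), Finset.sum_diag]
    congr 1
    simp only [if_true, Finset.sum_const, Finset.card_powerset, nsmul_eq_mul, mul_one]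
    push_cast
    ring
  have h4 : ∑ x ∈ S.offDiag, ∑ T ∈ P.powerset,
        (if cls P ι T x.1 = cls P ι T x.2 then (1 : ℝ) else 0) ≤
      ∑ x ∈ S.offDiag, hh P (Q x.1 x.2).toNat := by
    apply Finset.sum_le_sum
    intro x _
    refine le_trans (le_of_eq ?_) (sum_ind_le P ι hι hP x.1 x.2)
    apply Finset.sum_congr rfl
    intro T hT
    exact ind_cls P ι T (Finset.mem_powerset.mp hT) x.1 x.2
  have h5 := sum_pairs_le S m hS hD (hh P) (hh_nonneg P)
  have h6 := sum_hh_le P hP (2 * m ^ 2)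
  have h7 : (2 : ℝ) ^ P.card * ((S.card : ℝ) ^ 2 / (∏ p ∈ P, (p : ℝ))) ≤
      (2 : ℝ) ^ P.card * S.card + 2 * (((2 * m ^ 2 : ℕ) : ℝ) / (∏ p ∈ P, (p : ℝ)) * (6 / 5) ^ P.card) := by
    rw [h3] at h1
    linarith
  push_cast at h7
  have h8 : 2 * (2 * (m : ℝ) ^ 2 / (∏ p ∈ P, (p : ℝ)) * (6 / 5) ^ P.card) =
      4 * (m : ℝ) ^ 2 / (∏ p ∈ P, (p : ℝ)) * (6 / 5) ^ P.card := by ring
  rw [h8] at h7
  linarith

end main


end partA

section partB

open ArithmeticFunction ArithmeticFunction.vonMangoldt Complex LSeries Filter Topology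


/-- Upper bound for the Dirichlet series of `Λ` restricted to a residue class. -/
lemma residueClass_upper_bound {q : ℕ} [NeZero q] {a : ZMod q} (ha : IsUnit a) :
    ∃ C : ℝ, ∀ {x : ℝ} (_ : x ∈ Set.Ioc 1 2),
      ∑' n, residueClass a n / (n : ℝ) ^ x ≤ (q.totient : ℝ)⁻¹ / (x - 1) + C := by
  have H {x : ℝ} (hx : 1 < x) :
      ∑' n, residueClass a n / (n : ℝ) ^ x =
        (LFunctionResidueClassAux a x).re + (q.totient : ℝ)⁻¹ / (x - 1) := by
    refine ofReal_injective ?_
    simp only [ofReal_tsum, ofReal_div, ofReal_cpow (Nat.cast_nonneg _), ofReal_natCast,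
      ofReal_add, ofReal_inv, ofReal_sub, ofReal_one]
    simp_rw [← LFunctionResidueClassAux_real ha hx,
      eqOn_LFunctionResidueClassAux ha <| Set.mem_ofPred.mpr (ofReal_re x ▸ hx), sub_add_cancel,
      LSeries, term]
    refine tsum_congr fun n ↦ ?_
    split_ifs with hn
    · simp only [hn, residueClass_apply_zero, ofReal_zero, zero_div]
    · rfl
  have : ContinuousOn (fun x : ℝ ↦ (LFunctionResidueClassAux a x).re) (Set.Icc 1 2) :=
    continuous_re.continuousOn.comp (t := Set.univ) (continuousOn_LFunctionResidueClassAux a)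
      (fun ⦃x⦄ a ↦ trivial) |>.comp continuous_ofReal.continuousOn fun x hx ↦ by
        simpa only [Set.mem_ofPred_eq, ofReal_re] using hx.1
  obtain ⟨C, hC⟩ := bddAbove_def.mp <| IsCompact.bddAbove_image isCompact_Icc this
  replace hC {x : ℝ} (hx : x ∈ Set.Icc 1 2) : (LFunctionResidueClassAux a x).re ≤ C :=
    hC (LFunctionResidueClassAux a x).re <|
      Set.mem_image_of_mem (fun x : ℝ ↦ (LFunctionResidueClassAux a x).re) hx
  refine ⟨C, fun {x} hx ↦ ?_⟩
  rw [H hx.1, add_comm]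
  have := hC <| Set.mem_Icc_of_Ioc hx
  linarith

lemma vonMangoldt_eq_residueClass (n : ℕ) : vonMangoldt n = residueClass (1 : ZMod 1) n := by
  rw [residueClass, Set.indicator_of_mem]
  exact Subsingleton.elim _ _

/-- `∑ Λ(n) n^{-x} ≤ 1/(x-1) + C` -/
lemma vonMangoldt_upper_bound :
    ∃ C : ℝ, ∀ x ∈ Set.Ioc (1 : ℝ) 2, ∑' n : ℕ, vonMangoldt n / (n : ℝ) ^ x ≤ 1 / (x - 1) + C := by
  obtain ⟨C, hC⟩ := residueClass_upper_bound (q := 1) (a := 1) isUnit_one
  refine ⟨C, fun x hx => ?_⟩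
  have := hC hx
  simp only [← vonMangoldt_eq_residueClass, Nat.totient_one, Nat.cast_one, inv_one] at this
  exact this

lemma summable_vonMangoldt {x : ℝ} (hx : 1 < x) :
    Summable (fun n : ℕ => vonMangoldt n / (n : ℝ) ^ x) := by
  have := summable_real_of_abscissaOfAbsConv_lt (f := residueClass (1 : ZMod 1)) (x := x)
    ((abscissaOfAbsConv_residueClass_le_one 1).trans_lt <| mod_cast hx)
  simpa only [← vonMangoldt_eq_residueClass] using this

lemma summable_residueClass4 {x : ℝ} (hx : 1 < x) :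
    Summable (fun n : ℕ => residueClass (1 : ZMod 4) n / (n : ℝ) ^ x) :=
  summable_real_of_abscissaOfAbsConv_lt (f := residueClass (1 : ZMod 4)) (x := x)
    ((abscissaOfAbsConv_residueClass_le_one 1).trans_lt <| mod_cast hx)

/-- the sum over `n ≤ y`, `n ≡ 1 mod 4` of `Λ(n)/n` is large -/
lemma sum_residue_lower : ∃ C : ℝ, 0 ≤ C ∧ ∀ e : ℝ, 0 < e → e ≤ 1 / 2 → ∀ y : ℕ, 1 ≤ y →
    1 / (4 * e) - C ≤ ∑ n ∈ Finset.range (y + 1), residueClass (1 : ZMod 4) n / n +
      (y : ℝ) ^ (-e) * (1 / e + C) := by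
  obtain ⟨C1, hC1⟩ := LSeries_residueClass_lower_bound (q := 4) (a := 1) isUnit_one
  obtain ⟨C2, hC2⟩ := vonMangoldt_upper_bound
  refine ⟨max 0 (max C1 C2), le_max_left _ _, ?_⟩
  intro e he0 he1 y hy
  have hy0 : (0 : ℝ) < y := by exact_mod_cast hy
  have h1 := hC1 (x := 1 + 2 * e) ⟨by linarith, by linarith⟩
  have h2 := hC2 (1 + e) ⟨by linarith, by linarith⟩
  have hs1 : Summable (fun n : ℕ => residueClass (1 : ZMod 4) n / (n : ℝ) ^ (1 + 2 * e)) :=
    summable_residueClass4 (by linarith)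
  have hs2 : Summable (fun n : ℕ => vonMangoldt n / (n : ℝ) ^ (1 + e)) :=
    summable_vonMangoldt (by linarith)
  have hs3 : Summable (fun n : ℕ => if n ∈ Finset.range (y + 1) then
      residueClass (1 : ZMod 4) n / (n : ℝ) else 0) := by
    apply summable_of_ne_finset_zero (s := Finset.range (y + 1))
    intro n hn
    rw [if_neg hn]
  have hpt : ∀ n : ℕ, residueClass (1 : ZMod 4) n / (n : ℝ) ^ (1 + 2 * e) ≤
      (if n ∈ Finset.range (y + 1) then residueClass (1 : ZMod 4) n / (n : ℝ) else 0) +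
        (y : ℝ) ^ (-e) * (vonMangoldt n / (n : ℝ) ^ (1 + e)) := by
    intro n
    have hr0 : 0 ≤ residueClass (1 : ZMod 4) n := residueClass_nonneg 1 n
    have hrΛ : residueClass (1 : ZMod 4) n ≤ vonMangoldt n := residueClass_le 1 n
    have hΛ0 : 0 ≤ vonMangoldt n := vonMangoldt_nonneg
    rcases Nat.eq_zero_or_pos n with rfl | hn
    · simp [residueClass_apply_zero]
    have hn0 : (0 : ℝ) < n := by exact_mod_cast hn
    have hn1 : (1 : ℝ) ≤ n := by exact_mod_cast hn
    by_cases hny : n ∈ Finset.range (y + 1)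
    · rw [if_pos hny]
      have h3 : residueClass (1 : ZMod 4) n / (n : ℝ) ^ (1 + 2 * e) ≤
          residueClass (1 : ZMod 4) n / (n : ℝ) := by
        apply div_le_div_of_nonneg_left hr0 hn0
        calc (n : ℝ) = (n : ℝ) ^ (1 : ℝ) := (Real.rpow_one _).symm
          _ ≤ (n : ℝ) ^ (1 + 2 * e) := Real.rpow_le_rpow_of_exponent_le hn1 (by linarith)
      have h4 : 0 ≤ (y : ℝ) ^ (-e) * (vonMangoldt n / (n : ℝ) ^ (1 + e)) := by positivity
      linarith
    · rw [if_neg hny, zero_add]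
      rw [Finset.mem_range] at hny
      have hyn : (y : ℝ) ≤ n := by exact_mod_cast (by omega : y ≤ n)
      have e1 : (n : ℝ) ^ (1 + 2 * e) = (n : ℝ) ^ (1 + e) * (n : ℝ) ^ e := by
        rw [← Real.rpow_add hn0]; congr 1; ring
      have e2 : (y : ℝ) ^ e ≤ (n : ℝ) ^ e := Real.rpow_le_rpow hy0.le hyn he0.le
      have e3 : 0 < (y : ℝ) ^ e := Real.rpow_pos_of_pos hy0 _
      have e4 : 0 < (n : ℝ) ^ (1 + e) := Real.rpow_pos_of_pos hn0 _
      rw [e1, Real.rpow_neg hy0.le]
      calc residueClass (1 : ZMod 4) n / ((n : ℝ) ^ (1 + e) * (n : ℝ) ^ e)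
          ≤ vonMangoldt n / ((n : ℝ) ^ (1 + e) * (y : ℝ) ^ e) := by
            apply div_le_div₀ hΛ0 hrΛ (by positivity)
            exact mul_le_mul_of_nonneg_left e2 e4.le
        _ = ((y : ℝ) ^ e)⁻¹ * (vonMangoldt n / (n : ℝ) ^ (1 + e)) := by
            field_simp
  have hsum := Summable.tsum_le_tsum hpt hs1 (hs3.add (hs2.mul_left _))
  have h5 : ∑' n : ℕ, (if n ∈ Finset.range (y + 1) then
      residueClass (1 : ZMod 4) n / (n : ℝ) else 0) =
      ∑ n ∈ Finset.range (y + 1), residueClass (1 : ZMod 4) n / n := by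
    rw [tsum_eq_sum (s := Finset.range (y + 1)) (fun n hn => by rw [if_neg hn])]
    exact Finset.sum_congr rfl (fun n hn => by rw [if_pos hn])
  rw [Summable.tsum_add hs3 (hs2.mul_left _), tsum_mul_left, h5] at hsum
  have h6 : ((Nat.totient 4 : ℕ) : ℝ)⁻¹ / (1 + 2 * e - 1) = 1 / (4 * e) := by
    have : Nat.totient 4 = 2 := by decide
    rw [this]
    push_cast
    field_simp
    ring
  rw [h6] at h1
  have h7 : 1 + e - 1 = e := by ring
  rw [h7] at h2
  have h8 : (0 : ℝ) ≤ (y : ℝ) ^ (-e) := (Real.rpow_pos_of_pos hy0 _).le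
  have h9 : (y : ℝ) ^ (-e) * ∑' n : ℕ, vonMangoldt n / (n : ℝ) ^ (1 + e) ≤
      (y : ℝ) ^ (-e) * (1 / e + max 0 (max C1 C2)) := by
    apply mul_le_mul_of_nonneg_left _ h8
    have : C2 ≤ max 0 (max C1 C2) := le_trans (le_max_right _ _) (le_max_right _ _)
    linarith
  have h10 : C1 ≤ max 0 (max C1 C2) := le_trans (le_max_left _ _) (le_max_right _ _)
  linarith

/-- `∑_{n ≤ z} Λ(n)/n ≤ e (log z + C)` -/
lemma sum_vonMangoldt_upper : ∃ C : ℝ, 0 ≤ C ∧ ∀ z : ℝ, 3 ≤ z → ∀ s : Finset ℕ,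
    (∀ n ∈ s, (n : ℝ) ≤ z) →
    ∑ n ∈ s, vonMangoldt n / (n : ℝ) ≤ 3 * (Real.log z + C) := by
  obtain ⟨C2, hC2⟩ := vonMangoldt_upper_bound
  refine ⟨max 0 C2, le_max_left _ _, ?_⟩
  intro z hz s hs
  have hlog : 1 ≤ Real.log z := by
    rw [Real.le_log_iff_exp_le (by linarith)]
    have := Real.exp_one_lt_d9
    linarith
  have hlog0 : 0 < Real.log z := by linarith
  have h2 := hC2 (1 + 1 / Real.log z) ⟨by
    have : 0 < 1 / Real.log z := by positivity
    linarith, by
    have : 1 / Real.log z ≤ 1 := by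
      rw [div_le_one hlog0]; exact hlog
    linarith⟩
  have hs2 : Summable (fun n : ℕ => vonMangoldt n / (n : ℝ) ^ (1 + 1 / Real.log z)) :=
    summable_vonMangoldt (by
      have : 0 < 1 / Real.log z := by positivity
      linarith)
  have h3 : ∑ n ∈ s, vonMangoldt n / (n : ℝ) ≤
      ∑ n ∈ s, 3 * (vonMangoldt n / (n : ℝ) ^ (1 + 1 / Real.log z)) := by
    apply Finset.sum_le_sum
    intro n hn
    have hΛ0 : 0 ≤ vonMangoldt n := vonMangoldt_nonneg
    rcases Nat.eq_zero_or_pos n with rfl | hn'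
    · simp
    have hn0 : (0 : ℝ) < n := by exact_mod_cast hn'
    have hnz := hs n hn
    rw [Real.rpow_add hn0, Real.rpow_one]
    have e1 : (n : ℝ) ^ (1 / Real.log z) ≤ 3 := by
      calc (n : ℝ) ^ (1 / Real.log z) ≤ z ^ (1 / Real.log z) :=
            Real.rpow_le_rpow hn0.le hnz (by positivity)
        _ = Real.exp 1 := by
            rw [Real.rpow_def_of_pos (by linarith)]
            congr 1
            field_simp
        _ ≤ 3 := by
            have := Real.exp_one_lt_d9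
            linarith
    have e2 : 0 < (n : ℝ) ^ (1 / Real.log z) := Real.rpow_pos_of_pos hn0 _
    rw [div_le_iff₀ hn0]
    have e3 : 3 * (vonMangoldt n / ((n : ℝ) * (n : ℝ) ^ (1 / Real.log z))) * n =
        vonMangoldt n * (3 / (n : ℝ) ^ (1 / Real.log z)) := by
      field_simp
    rw [e3]
    have e4 : 1 ≤ 3 / (n : ℝ) ^ (1 / Real.log z) := by
      rw [le_div_iff₀ e2]; linarith
    nlinarith
  rw [← Finset.mul_sum] at h3
  have h4 : ∑ n ∈ s, vonMangoldt n / (n : ℝ) ^ (1 + 1 / Real.log z) ≤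
      ∑' n : ℕ, vonMangoldt n / (n : ℝ) ^ (1 + 1 / Real.log z) := by
    apply hs2.sum_le_tsum
    intro n _
    have hΛ0 : 0 ≤ vonMangoldt n := vonMangoldt_nonneg
    positivity
  have h5 : 1 / (1 + 1 / Real.log z - 1) = Real.log z := by
    field_simp
    ring
  rw [h5] at h2
  have h6 : C2 ≤ max 0 C2 := le_max_right _ _
  linarith

/-- the primes `p ≤ y` with `p ≡ 1 mod 4` -/
def primes14 (y : ℕ) : Finset ℕ := (Finset.range (y + 1)).filter (fun p => p.Prime ∧ p % 4 = 1)

/-- There are at least `y^{1/100}` primes `≡ 1 mod 4` up to `y`, for all large `y`. -/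
lemma primes_count : ∀ᶠ y : ℕ in atTop, (y : ℝ) ^ (1 / 100 : ℝ) ≤ ((primes14 y).card : ℝ) := by
  obtain ⟨C1, hC1, h1⟩ := sum_residue_lower
  obtain ⟨C2, hC2, h2⟩ := sum_vonMangoldt_upper
  have hsum3 := summable_residueClass_non_primes_div (1 : ZMod 4)
  obtain ⟨C3, hC3⟩ : ∃ C3 : ℝ, C3 = ∑' n : ℕ, (if n.Prime then 0 else residueClass (1 : ZMod 4) n) / n :=
    ⟨_, rfl⟩
  have hpos3 : ∀ n : ℕ, 0 ≤ (if n.Prime then 0 else residueClass (1 : ZMod 4) n) / (n : ℝ) := by
    intro n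
    have := residueClass_nonneg (1 : ZMod 4) n
    split_ifs
    · simp
    · positivity
  have hC3' : 0 ≤ C3 := by
    rw [hC3]; exact tsum_nonneg hpos3
  have hlogt : Tendsto (fun y : ℕ => Real.log (y : ℝ)) atTop atTop :=
    Real.tendsto_log_atTop.comp tendsto_natCast_atTop_atTop
  have hpowt : Tendsto (fun y : ℕ => (y : ℝ) ^ (1 / 96 - 1 / 100 : ℝ)) atTop atTop :=
    (tendsto_rpow_atTop (by norm_num)).comp tendsto_natCast_atTop_atTop
  have hpowt2 : Tendsto (fun y : ℕ => (y : ℝ) ^ (1 / 96 : ℝ)) atTop atTop :=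
    (tendsto_rpow_atTop (by norm_num)).comp tendsto_natCast_atTop_atTop
  filter_upwards [hlogt.eventually_ge_atTop 6, hlogt.eventually_ge_atTop (64 * (2 * C1 + 3 * C2 + C3)),
    hpowt.eventually_ge_atTop 64, hpowt2.eventually_ge_atTop 3, eventually_ge_atTop 1]
    with y hy6 hyC hy64 hy3 hy1
  have hy0 : (0 : ℝ) < y := by exact_mod_cast hy1
  set Lg := Real.log (y : ℝ) with hLg
  have hLg0 : 0 < Lg := by linarith
  -- lower bound for the whole sum
  have hA := h1 (3 / Lg) (by positivity) (by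
    rw [div_le_div_iff₀ hLg0 (by norm_num)]; linarith) y hy1
  have hexp : (y : ℝ) ^ (-(3 / Lg)) ≤ 1 / 16 := by
    rw [Real.rpow_def_of_pos hy0, ← hLg]
    have e1 : Lg * -(3 / Lg) = -3 := by field_simp
    rw [e1, Real.exp_neg]
    have e2 : (16 : ℝ) ≤ Real.exp 3 := by
      have e3 : Real.exp 3 = (Real.exp 1) ^ 3 := by
        rw [← Real.exp_nat_mul]; norm_num
      rw [e3]
      have e4 : (2.7 : ℝ) ≤ Real.exp 1 := by
        have := Real.exp_one_gt_d9
        linarith
      calc (16 : ℝ) ≤ 2.7 ^ 3 := by norm_num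
        _ ≤ (Real.exp 1) ^ 3 := by gcongr
    rw [inv_eq_one_div]
    exact one_div_le_one_div_of_le (by norm_num) e2
  have hA1 : Lg / 16 - 2 * C1 ≤ ∑ n ∈ Finset.range (y + 1), residueClass (1 : ZMod 4) n / n := by
    have e1 : 1 / (4 * (3 / Lg)) = Lg / 12 := by field_simp; norm_num
    have e2 : 1 / (3 / Lg) = Lg / 3 := by field_simp
    rw [e1, e2] at hA
    have e3 : (y : ℝ) ^ (-(3 / Lg)) * (Lg / 3 + C1) ≤ 1 / 16 * (Lg / 3 + C1) :=
      mul_le_mul_of_nonneg_right hexp (by positivity)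
    linarith
  set z : ℝ := (y : ℝ) ^ (1 / 96 : ℝ) with hz
  have hz0 : 0 < z := by positivity
  have hlogz : Real.log z = Lg / 96 := by
    rw [hz, Real.log_rpow hy0]; ring
  -- small n
  have hB := h2 z hy3 ((Finset.range (y + 1)).filter (fun n : ℕ => (n : ℝ) ≤ z))
    (fun n hn => (Finset.mem_filter.mp hn).2)
  rw [hlogz] at hB
  have hB1 : ∑ n ∈ (Finset.range (y + 1)).filter (fun n : ℕ => (n : ℝ) ≤ z),
      residueClass (1 : ZMod 4) n / (n : ℝ) ≤ 3 * (Lg / 96 + C2) := by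
    refine le_trans (Finset.sum_le_sum (fun n _ => ?_)) hB
    have := residueClass_le (1 : ZMod 4) n
    gcongr
  -- non primes
  have hC : ∑ n ∈ (Finset.range (y + 1)).filter (fun n : ℕ => ¬ (n : ℝ) ≤ z),
      (if n.Prime then 0 else residueClass (1 : ZMod 4) n) / (n : ℝ) ≤ C3 := by
    rw [hC3]
    exact hsum3.sum_le_tsum _ (fun n _ => hpos3 n)
  -- primes
  have hD : ∑ n ∈ (Finset.range (y + 1)).filter (fun n : ℕ => ¬ (n : ℝ) ≤ z),
      (if n.Prime then residueClass (1 : ZMod 4) n else 0) / (n : ℝ) ≤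
      ((primes14 y).card : ℝ) * (Lg / z) := by
    have e1 : ∀ n ∈ (Finset.range (y + 1)).filter (fun n : ℕ => ¬ (n : ℝ) ≤ z),
        (if n.Prime then residueClass (1 : ZMod 4) n else 0) / (n : ℝ) ≤
        if n ∈ primes14 y then Lg / z else 0 := by
      intro n hn
      rw [Finset.mem_filter, Finset.mem_range, not_le] at hn
      have hzn : z < n := hn.2
      have hn0 : (0 : ℝ) < n := lt_trans hz0 hzn
      by_cases hp : n.Prime
      · rw [if_pos hp]
        by_cases h4 : n % 4 = 1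
        · have hmem : n ∈ primes14 y := by
            unfold primes14
            rw [Finset.mem_filter, Finset.mem_range]
            exact ⟨hn.1, hp, h4⟩
          rw [if_pos hmem]
          have e2 : residueClass (1 : ZMod 4) n ≤ Lg := by
            refine (residueClass_le _ _).trans ?_
            rw [vonMangoldt_apply_prime hp]
            apply Real.log_le_log hn0
            exact_mod_cast (by omega : n ≤ y)
          apply div_le_div₀ hLg0.le e2 hz0 hzn.le
        · have e3 : residueClass (1 : ZMod 4) n = 0 := by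
            rw [residueClass, Set.indicator_of_notMem]
            intro h
            apply h4
            have h5 : (n : ZMod 4) = 1 := h
            have h6 : (n : ZMod 4) = ((1 : ℕ) : ZMod 4) := by rw [h5]; norm_num
            rw [ZMod.natCast_eq_natCast_iff'] at h6
            exact h6
          rw [e3, zero_div]
          split_ifs <;> positivity
      · rw [if_neg hp, zero_div]
        split_ifs <;> positivity
    calc ∑ n ∈ (Finset.range (y + 1)).filter (fun n : ℕ => ¬ (n : ℝ) ≤ z),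
      (if n.Prime then residueClass (1 : ZMod 4) n else 0) / (n : ℝ)
        ≤ ∑ n ∈ (Finset.range (y + 1)).filter (fun n : ℕ => ¬ (n : ℝ) ≤ z),
          (if n ∈ primes14 y then Lg / z else 0) := Finset.sum_le_sum e1
      _ ≤ ∑ n ∈ (Finset.range (y + 1)), (if n ∈ primes14 y then Lg / z else 0) := by
          apply Finset.sum_le_sum_of_subset_of_nonneg (Finset.filter_subset _ _)
          intro n _ _
          split_ifs <;> positivity
      _ = ((primes14 y).card : ℝ) * (Lg / z) := by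
          rw [← Finset.sum_filter, Finset.sum_const, nsmul_eq_mul]
          congr 2
          congr 1
          ext n
          simp only [primes14, Finset.mem_filter]
          tauto
  have hsplit : ∑ n ∈ Finset.range (y + 1), residueClass (1 : ZMod 4) n / (n : ℝ) =
      ∑ n ∈ (Finset.range (y + 1)).filter (fun n : ℕ => (n : ℝ) ≤ z),
        residueClass (1 : ZMod 4) n / (n : ℝ) +
      (∑ n ∈ (Finset.range (y + 1)).filter (fun n : ℕ => ¬ (n : ℝ) ≤ z),
        (if n.Prime then residueClass (1 : ZMod 4) n else 0) / (n : ℝ) +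
      ∑ n ∈ (Finset.range (y + 1)).filter (fun n : ℕ => ¬ (n : ℝ) ≤ z),
        (if n.Prime then 0 else residueClass (1 : ZMod 4) n) / (n : ℝ)) := by
    rw [← Finset.sum_add_distrib, ← Finset.sum_filter_add_sum_filter_not (Finset.range (y + 1))
      (fun n : ℕ => (n : ℝ) ≤ z)]
    congr 1
    apply Finset.sum_congr rfl
    intro n _
    split_ifs <;> simp
  rw [hsplit] at hA1
  have hE : Lg / 64 ≤ ((primes14 y).card : ℝ) * (Lg / z) := by linarith
  have hF : z / 64 ≤ ((primes14 y).card : ℝ) := by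
    have e1 : ((primes14 y).card : ℝ) * (Lg / z) = (((primes14 y).card : ℝ) / z) * Lg := by ring
    rw [e1] at hE
    have e2 : (1 / 64 : ℝ) ≤ ((primes14 y).card : ℝ) / z := by
      by_contra hcon
      push Not at hcon
      nlinarith
    rw [le_div_iff₀ hz0] at e2
    linarith
  have hG : (y : ℝ) ^ (1 / 100 : ℝ) ≤ z / 64 := by
    have e1 : z = (y : ℝ) ^ (1 / 96 - 1 / 100 : ℝ) * (y : ℝ) ^ (1 / 100 : ℝ) := by
      rw [hz, ← Real.rpow_add hy0]; congr 1; ring
    have e2 : 0 < (y : ℝ) ^ (1 / 100 : ℝ) := Real.rpow_pos_of_pos hy0 _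
    rw [e1, le_div_iff₀ (by norm_num)]
    nlinarith
  exact hG.trans hF


end partB

section partC

open Filter Topology

lemma card_bound {m : ℕ} {S : Finset (ℤ × ℤ)} (hS : S ⊆ lattice m) (hD : SpansNoDistanceTwice S)
    (P : Finset ℕ) (hP : ∀ p ∈ P, p.Prime ∧ p % 4 = 1) :
    (2 : ℝ) ^ P.card * ((S.card : ℝ) ^ 2 / (∏ p ∈ P, (p : ℝ)) - S.card) ≤
      4 * (m : ℝ) ^ 2 / (∏ p ∈ P, (p : ℝ)) * (6 / 5) ^ P.card := by
  apply main_ineq P hP S m
  · intro a ha
    have := hS ha
    unfold lattice at this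
    rw [Finset.mem_product, Finset.mem_Icc, Finset.mem_Icc] at this
    exact ⟨this.1.1, this.1.2, this.2.1, this.2.2⟩
  · intro a ha b hb c hc d hd hab hcd hQ
    have hdist : euclDist a b = euclDist c d := by
      unfold euclDist
      congr 1
      have : ((Q a b : ℤ) : ℝ) = ((Q c d : ℤ) : ℝ) := by rw [hQ]
      unfold Q at this
      push_cast at this
      exact this
    have h := hD a ha b hb c hc d hd hab hcd hdist
    rw [Sym2.eq_iff] at h
    exact h

/-- choice of the primes -/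
lemma choose_primes : ∃ c : ℝ, 0 < c ∧ ∀ᶠ m : ℕ in atTop, ∃ P : Finset ℕ,
    (∀ p ∈ P, p.Prime ∧ p % 4 = 1) ∧ (∏ p ∈ P, (p : ℝ)) ≤ Real.exp (Real.log m / 2) ∧
    c * (Real.log m / Real.log (Real.log m)) ≤ (P.card : ℝ) := by
  refine ⟨1 / 300, by norm_num, ?_⟩
  have hlogt : Tendsto (fun m : ℕ => Real.log (m : ℝ)) atTop atTop :=
    Real.tendsto_log_atTop.comp tendsto_natCast_atTop_atTop
  have hloglogt : Tendsto (fun m : ℕ => Real.log (Real.log (m : ℝ))) atTop atTop :=
    Real.tendsto_log_atTop.comp hlogt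
  have hyt : Tendsto (fun m : ℕ => ⌈(Real.log (m : ℝ)) ^ (100 : ℕ)⌉₊) atTop atTop := by
    apply tendsto_nat_ceil_atTop.comp
    exact (tendsto_pow_atTop (by norm_num)).comp hlogt
  have hcount := hyt.eventually primes_count
  have hsmall : ∀ᶠ m : ℕ in atTop, Real.log (Real.log (m : ℝ)) ≤ (1 / 1000) * Real.log (m : ℝ) := by
    have h := (Real.isLittleO_log_id_atTop).bound (show (0 : ℝ) < 1 / 1000 by norm_num)
    have h2 := hlogt.eventually h
    filter_upwards [h2, hlogt.eventually_ge_atTop 1] with m hm h1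
    simp only [id, Real.norm_eq_abs] at hm
    rw [abs_of_nonneg (by linarith : (0 : ℝ) ≤ Real.log (m : ℝ))] at hm
    exact (le_abs_self _).trans hm
  filter_upwards [hcount, hlogt.eventually_ge_atTop 3, hloglogt.eventually_ge_atTop 1, hsmall]
    with m hm h3 hll hsm
  set L := Real.log (m : ℝ) with hL
  set y : ℕ := ⌈L ^ (100 : ℕ)⌉₊ with hy
  have hL0 : 0 < L := by linarith
  have hyL : L ^ (100 : ℕ) ≤ (y : ℝ) := Nat.le_ceil _
  have hyL2 : (y : ℝ) ≤ L ^ (101 : ℕ) := by
    have h1 : (y : ℝ) < L ^ (100 : ℕ) + 1 := Nat.ceil_lt_add_one (by positivity)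
    have h2 : (1 : ℝ) ≤ L ^ (100 : ℕ) := one_le_pow₀ (by linarith)
    have h4 : L ^ (101 : ℕ) = L ^ (100 : ℕ) * L := pow_succ _ _
    rw [h4]
    nlinarith
  have hy1 : (1 : ℝ) < y := by
    have h2 : (1 : ℝ) < L ^ (100 : ℕ) := one_lt_pow₀ (by linarith) (by norm_num)
    linarith
  have hy0 : (0 : ℝ) < y := by linarith
  have hlogy : Real.log y ≤ 101 * Real.log L := by
    calc Real.log y ≤ Real.log (L ^ (101 : ℕ)) := Real.log_le_log hy0 hyL2
      _ = 101 * Real.log L := by rw [Real.log_pow]; norm_num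
  have hlogy0 : 0 < Real.log y := Real.log_pos hy1
  have hcardy : L ≤ ((primes14 y).card : ℝ) := by
    refine le_trans ?_ hm
    calc L = (L ^ (100 : ℕ)) ^ (1 / 100 : ℝ) := by
          rw [← Real.rpow_natCast, ← Real.rpow_mul hL0.le]
          norm_num
      _ ≤ (y : ℝ) ^ (1 / 100 : ℝ) := Real.rpow_le_rpow (by positivity) hyL (by norm_num)
  let r : ℕ := ⌊L / (2 * Real.log y)⌋₊
  have hlogy1 : 1 ≤ Real.log y := by
    have e1 : Real.log (L ^ (100 : ℕ)) ≤ Real.log y := Real.log_le_log (by positivity) hyL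
    rw [Real.log_pow] at e1
    push_cast at e1
    linarith
  have hr1 : (r : ℝ) ≤ L / (2 * Real.log y) := Nat.floor_le (by positivity)
  have hrcard : r ≤ (primes14 y).card := by
    have e1 : (r : ℝ) ≤ ((primes14 y).card : ℝ) := by
      refine hr1.trans (le_trans ?_ hcardy)
      rw [div_le_iff₀ (by positivity)]
      nlinarith
    exact_mod_cast e1
  obtain ⟨P, hPsub, hPcard⟩ := Finset.exists_subset_card_eq hrcard
  refine ⟨P, ?_, ?_, ?_⟩
  · intro p hp
    have := hPsub hp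
    unfold primes14 at this
    exact (Finset.mem_filter.mp this).2
  · calc (∏ p ∈ P, (p : ℝ)) ≤ ∏ p ∈ P, (y : ℝ) := by
          apply Finset.prod_le_prod
          · intro p _; positivity
          · intro p hp
            have := hPsub hp
            unfold primes14 at this
            have h5 := Finset.mem_range.mp (Finset.mem_filter.mp this).1
            exact_mod_cast (by omega : p ≤ y)
      _ = (y : ℝ) ^ r := by rw [Finset.prod_const, hPcard]
      _ = Real.exp (r * Real.log y) := by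
          rw [mul_comm, Real.exp_mul, Real.exp_log hy0, Real.rpow_natCast]
      _ ≤ Real.exp (L / 2) := by
          apply Real.exp_le_exp.mpr
          calc (r : ℝ) * Real.log y ≤ L / (2 * Real.log y) * Real.log y :=
                mul_le_mul_of_nonneg_right hr1 hlogy0.le
            _ = L / 2 := by field_simp
  · rw [hPcard]
    have e1 : L / (2 * Real.log y) < r + 1 := Nat.lt_floor_add_one _
    have hlogL0 : 0 < Real.log L := by linarith
    have e2 : L / (202 * Real.log L) ≤ L / (2 * Real.log y) := by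
      apply div_le_div_of_nonneg_left hL0.le (by positivity)
      linarith
    have e3 : 1 ≤ (1 / 1000) * (L / Real.log L) := by
      rw [← mul_div_assoc, le_div_iff₀ hlogL0]
      linarith
    have e4 : L / (202 * Real.log L) = 1 / 202 * (L / Real.log L) := by
      field_simp
    have e5 : 0 < L / Real.log L := by positivity
    rw [e4] at e2
    linarith

/-- **Main theorem.** `s(n) ≤ n^{1/2 - c/log log n}` for all large `n = m²`. -/
theorem result : ∃ c : ℝ, 0 < c ∧ ∀ᶠ m : ℕ in Filter.atTop,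
    (sGrid m : ℝ) ≤ ((m : ℝ) ^ 2) ^ ((1 : ℝ) / 2 - c / Real.log (Real.log ((m : ℝ) ^ 2))) := by
  classical
  obtain ⟨c, hc, hch⟩ := choose_primes
  refine ⟨c / 16, by positivity, ?_⟩
  have hlogt : Tendsto (fun m : ℕ => Real.log (m : ℝ)) atTop atTop :=
    Real.tendsto_log_atTop.comp tendsto_natCast_atTop_atTop
  have hloglogt : Tendsto (fun m : ℕ => Real.log (Real.log (m : ℝ))) atTop atTop :=
    Real.tendsto_log_atTop.comp hlogt
  have hsmall : ∀ᶠ m : ℕ in atTop,
      Real.log (Real.log (m : ℝ)) ≤ (c / 100) * Real.log (m : ℝ) := by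
    have h := (Real.isLittleO_log_id_atTop).bound (show (0 : ℝ) < c / 100 by positivity)
    have h2 := hlogt.eventually h
    filter_upwards [h2, hlogt.eventually_ge_atTop 1] with m hm h1
    simp only [id, Real.norm_eq_abs] at hm
    rw [abs_of_nonneg (by linarith : (0 : ℝ) ≤ Real.log (m : ℝ))] at hm
    exact (le_abs_self _).trans hm
  filter_upwards [hch, hlogt.eventually_ge_atTop 100, hloglogt.eventually_ge_atTop 4,
    hloglogt.eventually_ge_atTop (4 * c), hsmall, eventually_ge_atTop 2] with m hm h3 hll hllc hsm hm2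
  obtain ⟨P, hP, hN, hcard⟩ := hm
  have hm0 : (0 : ℝ) < m := by exact_mod_cast (by omega : 0 < m)
  set L := Real.log (m : ℝ) with hL
  have hL0 : 0 < L := by linarith
  set ℓ := Real.log L with hℓ
  have hℓ0 : 0 < ℓ := by linarith
  set N : ℝ := ∏ p ∈ P, (p : ℝ) with hNdef
  have hNpos : 0 < N := by
    apply Finset.prod_pos
    intro p hp
    exact_mod_cast (hP p hp).1.pos
  have hmexp : (m : ℝ) = Real.exp L := (Real.exp_log hm0).symm
  -- the target is at least exp(L - c/8 * L/ℓ)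
  have htarget : Real.exp (L - c / 8 * (L / ℓ)) ≤
      ((m : ℝ) ^ 2) ^ ((1 : ℝ) / 2 - c / 16 / Real.log (Real.log ((m : ℝ) ^ 2))) := by
    have e1 : Real.log ((m : ℝ) ^ 2) = 2 * L := by rw [Real.log_pow, ← hL]; norm_num
    rw [e1, Real.rpow_def_of_pos (by positivity), e1]
    apply Real.exp_le_exp.mpr
    have e2 : ℓ ≤ Real.log (2 * L) := by
      rw [hℓ]; apply Real.log_le_log hL0; linarith
    have e3 : c / 16 / Real.log (2 * L) ≤ c / 16 / ℓ :=
      div_le_div_of_nonneg_left (by positivity) hℓ0 e2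
    have e4 : 2 * L * (1 / 2 - c / 16 / ℓ) ≤ 2 * L * (1 / 2 - c / 16 / Real.log (2 * L)) := by
      apply mul_le_mul_of_nonneg_left _ (by positivity)
      linarith
    refine le_trans (le_of_eq ?_) e4
    field_simp
    ring
  -- bound for every admissible S
  have hsup : ∀ S ∈ (lattice m).powerset.filter SpansNoDistanceTwice,
      (S.card : ℝ) ≤ Real.exp (L - c / 8 * (L / ℓ)) := by
    intro S hSm
    rw [Finset.mem_filter, Finset.mem_powerset] at hSm
    have hb := card_bound hSm.1 hSm.2 P hP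
    rw [← hNdef] at hb
    set k : ℝ := (S.card : ℝ) with hk
    have hk0 : 0 ≤ k := Nat.cast_nonneg _
    set r : ℕ := P.card with hr
    have hLℓ : 0 < L / ℓ := by positivity
    have hcL : 12 ≤ c * (L / ℓ) := by
      rw [← mul_div_assoc, le_div_iff₀ hℓ0]
      linarith
    by_cases hcase : k ≤ 2 * N
    · -- k ≤ 2 √m
      have e1 : k ≤ Real.exp (1 + L / 2) := by
        rw [Real.exp_add]
        have e2 : (2 : ℝ) ≤ Real.exp 1 := by
          have := Real.exp_one_gt_d9
          linarith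
        calc k ≤ 2 * N := hcase
          _ ≤ Real.exp 1 * Real.exp (L / 2) := by gcongr
      refine e1.trans (Real.exp_le_exp.mpr ?_)
      have e3 : c / 8 * (L / ℓ) ≤ L / 4 := by
        have : c / 8 * (L / ℓ) = (c / 8 / ℓ) * L := by ring
        rw [this]
        have e5 : c / 8 / ℓ ≤ 1 / 4 := by
          rw [div_le_div_iff₀ hℓ0 (by norm_num)]
          linarith
        nlinarith
      linarith
    · push Not at hcase
      have h2r : (0 : ℝ) < 2 ^ r := by positivity
      have e1 : k ^ 2 / 2 ≤ k ^ 2 - k * N := by nlinarith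
      have e2 : (2 : ℝ) ^ r * (k ^ 2 - k * N) ≤ 4 * (m : ℝ) ^ 2 * (6 / 5) ^ r := by
        have e3 := mul_le_mul_of_nonneg_left hb hNpos.le
        have e4 : N * ((2 : ℝ) ^ r * (k ^ 2 / N - k)) = (2 : ℝ) ^ r * (k ^ 2 - k * N) := by
          field_simp
        have e5 : N * (4 * (m : ℝ) ^ 2 / N * (6 / 5) ^ r) = 4 * (m : ℝ) ^ 2 * (6 / 5) ^ r := by
          field_simp
        rw [e4, e5] at e3
        exact e3
      have e3 : k ^ 2 ≤ 8 * (m : ℝ) ^ 2 * (3 / 5) ^ r := by
        have e4 : (6 / 5 : ℝ) ^ r = 2 ^ r * (3 / 5) ^ r := by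
          rw [← mul_pow]; norm_num
        rw [e4] at e2
        have e5 : (2 : ℝ) ^ r * (k ^ 2 - k * N) ≤ 2 ^ r * (4 * (m : ℝ) ^ 2 * (3 / 5) ^ r) := by
          linarith
        have e6 := le_of_mul_le_mul_left e5 h2r
        linarith
      have e4 : (3 / 5 : ℝ) ^ r ≤ Real.exp (-(c * (L / ℓ)) / 2) := by
        have e5 : (3 / 5 : ℝ) ≤ Real.exp (-(1 / 2)) := by
          rw [Real.exp_neg, ← one_div, le_div_iff₀ (Real.exp_pos _)]
          have e6 : Real.exp (1 / 2) ^ 2 ≤ (5 / 3) ^ 2 := by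
            rw [← Real.exp_nat_mul]
            have := Real.exp_one_lt_d9
            norm_num
            linarith
          have e7 := abs_le_of_sq_le_sq' e6 (by norm_num)
          linarith [e7.2]
        calc (3 / 5 : ℝ) ^ r ≤ (Real.exp (-(1 / 2))) ^ r := by gcongr
          _ = Real.exp (r * (-(1 / 2))) := by rw [← Real.exp_nat_mul]
          _ ≤ Real.exp (-(c * (L / ℓ)) / 2) := by
              apply Real.exp_le_exp.mpr
              linarith
      have e5 : k ^ 2 ≤ (Real.exp (L - c / 8 * (L / ℓ))) ^ 2 := by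
        have e6 : (8 : ℝ) ≤ Real.exp 3 := by
          have e7 : Real.exp 3 = (Real.exp 1) ^ 3 := by
            rw [← Real.exp_nat_mul]; norm_num
          rw [e7]
          have e8 : (2 : ℝ) ≤ Real.exp 1 := by
            have := Real.exp_one_gt_d9
            linarith
          calc (8 : ℝ) = 2 ^ 3 := by norm_num
            _ ≤ (Real.exp 1) ^ 3 := by gcongr
        calc k ^ 2 ≤ 8 * (m : ℝ) ^ 2 * (3 / 5) ^ r := e3
          _ ≤ Real.exp 3 * (Real.exp L) ^ 2 * Real.exp (-(c * (L / ℓ)) / 2) := by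
              rw [hmexp]
              gcongr
          _ = Real.exp (3 + 2 * L + -(c * (L / ℓ)) / 2) := by
              rw [Real.exp_add, Real.exp_add, ← Real.exp_nat_mul]
              norm_num
          _ ≤ Real.exp (2 * (L - c / 8 * (L / ℓ))) := by
              apply Real.exp_le_exp.mpr
              linarith
          _ = (Real.exp (L - c / 8 * (L / ℓ))) ^ 2 := by
              rw [← Real.exp_nat_mul]; norm_num
      exact (abs_le_of_sq_le_sq' e5 (Real.exp_pos _).le).2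
  refine le_trans ?_ htarget
  -- the sup is attained
  unfold sGrid
  have hne : ((lattice m).powerset.filter SpansNoDistanceTwice).Nonempty := by
    refine ⟨∅, ?_⟩
    rw [Finset.mem_filter]
    refine ⟨Finset.mem_powerset.mpr (Finset.empty_subset _), ?_⟩
    intro p hp
    simp at hp
  obtain ⟨S, hSm, hSeq⟩ := Finset.exists_mem_eq_sup _ hne Finset.card
  rw [hSeq]
  exact hsup S hSm

end partC

end Pool.Agent.Results.MP_0cbd55_co.UpperBound
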